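import Mathlib
import Pool.Agent.H735CB.LSFinal

set_option autoImplicit false

namespace Pool.Agent.Results.MP_cb27ba_nt.AlmostAllPrimes

/-- For every `δ > 0`: for a set `A` of integers in `[1,N]`, `Q^δ ≤ N ≤ Q`, with additive energy
at most `N^(ρ-1) |A|^4`, the power saving holds modulo `p` for every nonprincipal character, for
all primes `p ≤ Q` but `(Q^2 N)^ρ Q^ε`; indeed there are at most that many exceptional pairs
(prime, character). -/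
theorem result :
    ∀ δ ε : ℝ, 0 < δ → 0 < ε →
      ∃ τ : ℝ, 0 < τ ∧ ∃ Q0 : ℕ, ∀ Q : ℕ, Q0 ≤ Q → ∀ N : ℕ, (Q : ℝ) ^ δ ≤ N → N ≤ Q →
        ∀ A : Finset ℕ, A ⊆ Finset.Icc 1 N → A.Nonempty → ∀ ρ : ℝ, 0 ≤ ρ →
          (N : ℝ) * (Finset.addEnergy A A : ℝ) ≤ (N : ℝ) ^ ρ * (A.card : ℝ) ^ 4 →
          ∑ p ∈ (Finset.Icc 1 Q).filter Nat.Prime,
            ({χ : DirichletCharacter ℂ p | χ ≠ 1 ∧ (A.card : ℝ) ^ (2 - τ)
              ≤ ‖∑ a ∈ A, ∑ b ∈ A, χ ((a : ZMod p) - (b : ZMod p))‖}.ncard : ℝ)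
          ≤ ((Q : ℝ) ^ 2 * N) ^ ρ * (Q : ℝ) ^ ε :=
  fun δ ε hδ hε => Pool.Agent.H735CB.LSv.almost_all_primes δ ε hδ hε

end Pool.Agent.Results.MP_cb27ba_nt.AlmostAllPrimes
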