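import Mathlib
import Pool.Agent.H735CB.Final

set_option autoImplicit false

namespace Pool.Agent.Results.MP_cb27ba_nt.MoebiusAllCharacters

/-- The image of the set `A` under the Moebius map `x ↦ 1/(x+t)` (the pole `-t` is left out). -/
def mob {p : ℕ} (A : Finset (ZMod p)) (t : ZMod p) : Finset (ZMod p) :=
  (A.filter (fun a => a + t ≠ 0)).image (fun a => (a + t)⁻¹)

/-- For every `δ > 0` and every set `A` with `|A| > p^δ` the power saving holds for all pairs
(Moebius image `1/(A+t)`, character) but `p^(1+ε)` of the `p (p-1)` pairs. -/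
theorem result :
    ∀ δ ε : ℝ, 0 < δ → 0 < ε →
      ∃ τ : ℝ, 0 < τ ∧ ∃ P : ℕ, ∀ p : ℕ, p.Prime → P ≤ p →
        ∀ A : Finset (ZMod p), (p : ℝ) ^ δ < (A.card : ℝ) →
          ({q : ZMod p × DirichletCharacter ℂ p | ((mob A q.1).card : ℝ) ^ (2 - τ)
              ≤ ‖∑ a ∈ mob A q.1, ∑ b ∈ mob A q.1, q.2 (a - b)‖}.ncard : ℝ)
            ≤ (p : ℝ) ^ (1 + ε) :=
  fun δ ε hδ hε => Pool.Agent.H735CB.mob_pairs δ ε hδ hε

end Pool.Agent.Results.MP_cb27ba_nt.MoebiusAllCharacters
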