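import Mathlib
import Pool.Agent.H735CB.Final

set_option autoImplicit false

namespace Pool.Agent.Results.MP_cb27ba_nt.MoebiusOneCharacter

/-- The image of the set `A` under the Moebius map `x ↦ 1/(x+t)` (the pole `-t` is left out). -/
def mob {p : ℕ} (A : Finset (ZMod p)) (t : ZMod p) : Finset (ZMod p) :=
  (A.filter (fun a => a + t ≠ 0)).image (fun a => (a + t)⁻¹)

/-- For every set `A` and every nonprincipal character the power saving holds for all Moebius
images `1/(A+t)` but `16 p |A|^(2τ-1)` of them. -/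
theorem result :
    ∀ p : ℕ, p.Prime → ∀ A : Finset (ZMod p), 2 ≤ A.card →
      ∀ χ : DirichletCharacter ℂ p, χ ≠ 1 → ∀ τ : ℝ, 0 ≤ τ → τ ≤ 2 →
        ({t : ZMod p | ((mob A t).card : ℝ) ^ (2 - τ)
            ≤ ‖∑ a ∈ mob A t, ∑ b ∈ mob A t, χ (a - b)‖}.ncard : ℝ)
          ≤ 16 * p * (A.card : ℝ) ^ (2 * τ - 1) :=
  fun p hp A hA χ hχ τ h0 h2 => Pool.Agent.H735CB.mob_single p hp A hA χ hχ τ h0 h2

end Pool.Agent.Results.MP_cb27ba_nt.MoebiusOneCharacter
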