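import Mathlib
import Pool.Agent.H735CB.Final

set_option autoImplicit false

namespace Pool.Agent.Results.MP_cb27ba_nt.ProjectionAllCharacters

/-- Projections `x + t y` of a planar set `P`, `|P| > p^δ`, with at most `|P|^(1-c)` points on any
line: the power saving holds for all pairs (direction, character) but `p^(1+ε)` of them. -/
theorem result :
    ∀ δ c ε : ℝ, 0 < δ → 0 < c → 0 < ε →
      ∃ τ : ℝ, 0 < τ ∧ ∃ P0 : ℕ, ∀ p : ℕ, p.Prime → P0 ≤ p →
        ∀ P : Finset (ZMod p × ZMod p), (p : ℝ) ^ δ < (P.card : ℝ) →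
          (∀ α β γ : ZMod p, (α ≠ 0 ∨ β ≠ 0) →
            ((P.filter (fun z => α * z.1 + β * z.2 = γ)).card : ℝ) ≤ (P.card : ℝ) ^ (1 - c)) →
          ({q : ZMod p × DirichletCharacter ℂ p | (P.card : ℝ) ^ (2 - τ)
              ≤ ‖∑ x ∈ P, ∑ y ∈ P, q.2 ((x.1 + q.1 * x.2) - (y.1 + q.1 * y.2))‖}.ncard : ℝ)
            ≤ (p : ℝ) ^ (1 + ε) :=
  fun δ c ε hδ hc hε => Pool.Agent.H735CB.proj_pairs δ c ε hδ hc hε

end Pool.Agent.Results.MP_cb27ba_nt.ProjectionAllCharacters
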