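import Mathlib
import Pool.Agent.H735CB.Final

set_option autoImplicit false

namespace Pool.Agent.Results.MP_cb27ba_nt.ProjectionOneCharacter

/-- Projections `x + t y` of a planar set with at most `L` points on a line: for every
nonprincipal character the power saving holds for all `t` but `|P|^(2τ) (1 + p L / |P|)`. -/
theorem result :
    ∀ p : ℕ, p.Prime → ∀ (P : Finset (ZMod p × ZMod p)), P.Nonempty → ∀ L : ℕ,
      (∀ α β γ : ZMod p, (α ≠ 0 ∨ β ≠ 0) →
        (P.filter (fun z => α * z.1 + β * z.2 = γ)).card ≤ L) →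
      ∀ χ : DirichletCharacter ℂ p, χ ≠ 1 → ∀ τ : ℝ,
        ({t : ZMod p | (P.card : ℝ) ^ (2 - τ)
            ≤ ‖∑ x ∈ P, ∑ y ∈ P, χ ((x.1 + t * x.2) - (y.1 + t * y.2))‖}.ncard : ℝ)
          ≤ (P.card : ℝ) ^ (2 * τ) * (1 + p * L / P.card) :=
  fun p hp P hP L hL χ hχ τ => Pool.Agent.H735CB.proj_single p hp P hP L hL χ hχ τ

end Pool.Agent.Results.MP_cb27ba_nt.ProjectionOneCharacter
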